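import Mathlib
import Pool.Agent.Helper30.RY.Fin

set_option autoImplicit false

/-!
For the general hypersurface of degree `d` in projective `n`-space, `n ≥ d + 2`, every fibre of the evaluation map
on the space of parametrised rational curves of degree at most `e` has the expected dimension, at every point of the
hypersurface, in every characteristic.
-/

namespace Pool.Agent.Results.MP_7fc6e7_ag.EvaluationFibres

open Pool.Agent.Helper30 Pool.Agent.Helper30.RC MvPolynomial

theorem result (k : Type) [Field k] [IsAlgClosed k] (n d e : ℕ) (hd : 1 ≤ d)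
    (hn : d + 2 ≤ n) (he : 1 ≤ e) :
    ForGeneral (k := k) n d (fun f =>
      ∀ e' ≤ e, ∀ z : Fin (n + 1) → k, z ≠ 0 → eval z f = 0 →
        ringKrullDim (MvPolynomial (Fin (n + 1) × Fin e') k ⧸ RY.fibIdeal e' z f) =
          ((n + 1 - d) * e' : ℕ)) := by
  obtain ⟨D, hD, hDf⟩ := RY.thmFull k n d e hd hn he
  exact ⟨D, hD, fun f hf hDf' => (hDf f hf hDf').2.2.2⟩

end Pool.Agent.Results.MP_7fc6e7_ag.EvaluationFibres
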