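import Mathlib
import Pool.Agent.Helper30.RY.Tfi

set_option autoImplicit false

/-!
The Kontsevich space of stable maps of genus `0` and degree `e` to the general hypersurface `X` of degree `d` in
projective `n`-space, `n ≥ d + 2`, is irreducible of dimension `(n + 1 - d) e + n - 4`, in every characteristic:

* the space `V` of tuples of polynomials of degree at most `e` which give maps to `X` is irreducible and reduced,
  of dimension `(n + 1 - d) e + n`, and contains honest maps of degree `e`;
* every stable map to `X` over `k` is the limit, over a valuation ring, of an honest map which is the generic point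
  of `V` and has `(n + 1 - d) e + n - 4` moduli.
-/

namespace Pool.Agent.Results.MP_7fc6e7_ag.KontsevichSpace

open Pool.Agent.Helper30 Pool.Agent.Helper30.RC Pool.Agent.Helper30.RY MvPolynomial

theorem result (k : Type) [Field k] [IsAlgClosed k] (n d e : ℕ) (hd : 1 ≤ d)
    (hn : d + 2 ≤ n) (he : 1 ≤ e) :
    ForGeneral (k := k) n d (fun f =>
      (curveIdeal e f).IsPrime ∧
      ringKrullDim (CoeffRing k n e ⧸ curveIdeal e f) = ((n + 1 - d) * e + n : ℕ) ∧
      (∃ F : Fin (n + 1) → Polynomial k, (∀ i, (F i).natDegree ≤ e) ∧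
        (∃ i, (F i).natDegree = e) ∧ (∀ t, ∃ i, (F i).eval t ≠ 0) ∧ aeval F f = 0) ∧
      ∀ φ : StableMap k n e, φ.On f →
        ∃ (L : Type) (_ : Field L) (_ : Algebra k L) (O : ValuationSubring L)
          (G : Fin (n + 1) → Polynomial L),
          IsAlgClosed L ∧ (∀ t : k, algebraMap k L t ∈ O) ∧
          ((∀ i, (G i).natDegree ≤ e) ∧ (∃ i, (G i).natDegree = e) ∧
            (∀ t, ∃ i, (G i).eval t ≠ 0)) ∧
          (∀ P : CoeffRing k n e,
            aeval (fun il : Fin (n + 1) × Fin (e + 1) => (G il.1).coeff il.2) P = 0 ↔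
              P ∈ curveIdeal e f) ∧
          moduli k e G = ((n + 1 - d) * e + n - 4 : ℕ) ∧
          φ.LimitOf O G) :=
  thmKontsevich k n d e hd hn he

end Pool.Agent.Results.MP_7fc6e7_ag.KontsevichSpace
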